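import Pool.Agent.Helper32_X1.Pel

/-!
# Squad X1: module CLO (closed sets of roots)
-/

set_option autoImplicit false

open scoped BigOperators

noncomputable section

namespace Pool.Agent.PP.X1.H32

open Pool.Agent.PP.X1

section

variable {ℓ : ℕ} {G : Type} [Group G] (R : RGD ℓ G)

/-- nonnegative combinations whose sum is in the span of some simple roots -/
theorem mem_span_of_add {J : Set (Fin R.r)} {u v : R.E} (hu : Nn R.a u) (hv : Nn R.a v)
    (h : u + v ∈ Submodule.span ℝ (R.a '' J)) : u ∈ Submodule.span ℝ (R.a '' J) := by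
  obtain ⟨k, hk, rfl⟩ := hu
  obtain ⟨l, hl, rfl⟩ := hv
  rw [Finsupp.mem_span_image_iff_linearCombination] at h
  obtain ⟨m, hm, h1⟩ := h
  rw [Finsupp.linearCombination_apply, Finsupp.sum_fintype m (fun i c => c • R.a i)
    (fun i => zero_smul ℝ (R.a i))] at h1
  have h2 : ∑ i, (k i + l i - m i) • R.a i = 0 := by
    simp only [sub_smul, add_smul, Finset.sum_sub_distrib, Finset.sum_add_distrib]
    rw [h1, sub_self]
  have h3 := Fintype.linearIndependent_iff.mp R.base _ h2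
  apply Submodule.sum_mem
  intro i _
  by_cases hi : i ∈ J
  · exact Submodule.smul_mem _ _ (Submodule.subset_span (Set.mem_image_of_mem _ hi))
  · have h4 : m i = 0 := (Finsupp.mem_supported' _ _).mp hm i hi
    have h5 := h3 i
    have h6 : k i = 0 := by linarith [hk i, hl i]
    rw [h6, zero_smul]
    exact Submodule.zero_mem _

theorem mem_span_of_comb {J : Set (Fin R.r)} {b c : R.E} (hb : Nn R.a b) (hc : Nn R.a c)
    {p q : ℝ} (hp : 1 ≤ p) (hq : 1 ≤ q) (h : p • b + q • c ∈ Submodule.span ℝ (R.a '' J)) :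
    b ∈ Submodule.span ℝ (R.a '' J) := by
  have h1 := mem_span_of_add R (R.nn_smul (by linarith) hb) (R.nn_smul (by linarith) hc) h
  have hp0 : p ≠ 0 := by linarith
  have h2 := Submodule.smul_mem _ p⁻¹ h1
  rwa [smul_smul, inv_mul_cancel₀ hp0, one_smul] at h2

theorem ray_of_span {i : Fin R.r} {b : R.E} (hb : b ∈ R.pos)
    (h : b ∈ Submodule.span ℝ (R.a '' ({i} : Set (Fin R.r)))) : b ∈ R.ray i := by
  rw [Set.image_singleton, Submodule.mem_span_singleton] at h
  obtain ⟨u, hu⟩ := h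
  exact ray_of_smul R hb hu.symm

theorem span_of_ray {i : Fin R.r} {b : R.E} (hb : b ∈ R.ray i) :
    b ∈ Submodule.span ℝ (R.a '' ({i} : Set (Fin R.r))) := by
  obtain ⟨-, c, -, rfl⟩ := hb
  exact Submodule.smul_mem _ _ (Submodule.subset_span (Set.mem_image_of_mem _ rfl))

theorem clo_pos : R.Clo R.pos where
  sub := R.pos_sub
  up := fun _ hb _ hc h => ⟨h, R.nn_smul (by linarith) hb.2⟩
  add := fun _ hb _ hc _ _ hp hq h => add_pos R hb hc hp hq h

theorem clo_neg : R.Clo R.neg where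
  sub := R.neg_sub
  up := fun b hb c hc h => ⟨h, by
    rw [← smul_neg]
    exact R.nn_smul (by linarith) hb.2⟩
  add := fun b hb c hc p q hp hq h => ⟨h, by
    rw [neg_add, ← smul_neg, ← smul_neg]
    exact R.nn_add (R.nn_smul (by linarith) hb.2) (R.nn_smul (by linarith) hc.2)⟩

theorem clo_inter {A A' : Set R.E} (hA : R.Clo A) (hA' : R.Clo A') : R.Clo (A ∩ A') where
  sub := fun _ hb => hA.sub hb.1
  up := fun b hb c hc h => ⟨hA.up b hb.1 c hc h, hA'.up b hb.2 c hc h⟩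
  add := fun b hb c hc p q hp hq h =>
    ⟨hA.add b hb.1 c hc.1 p q hp hq h, hA'.add b hb.2 c hc.2 p q hp hq h⟩

theorem clo_lev (J : Finset (Fin R.r)) : R.Clo (R.lev J) where
  sub := R.lev_sub J
  up := fun _ hb _ _ h => ⟨h, Submodule.smul_mem _ _ hb.2⟩
  add := fun _ hb _ hc _ _ _ _ h =>
    ⟨h, Submodule.add_mem _ (Submodule.smul_mem _ _ hb.2) (Submodule.smul_mem _ _ hc.2)⟩

theorem clo_diff (J : Finset (Fin R.r)) : R.Clo (R.pos \ R.lev J) where
  sub := fun _ hb => hb.1.1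
  up := fun b hb c hc h => by
    refine ⟨(clo_pos R).up b hb.1 c hc h, fun h1 => hb.2 ⟨hb.1.1, ?_⟩⟩
    have hc0 : c ≠ 0 := by linarith
    have h2 := Submodule.smul_mem _ c⁻¹ h1.2
    rwa [smul_smul, inv_mul_cancel₀ hc0, one_smul] at h2
  add := fun b hb c hc p q hp hq h =>
    ⟨(clo_pos R).add b hb.1 c hc.1 p q hp hq h, fun h1 =>
      hb.2 ⟨hb.1.1, mem_span_of_comb R hb.1.2 hc.1.2 hp hq h1.2⟩⟩

theorem clo_image (w : List (Fin R.r)) {A : Set R.E} (hA : R.Clo A) : R.Clo (R.sw w '' A) where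
  sub := by
    rintro _ ⟨b, hb, rfl⟩
    exact R.sw_mem (hA.sub hb)
  up := by
    rintro _ ⟨b, hb, rfl⟩ c hc h
    rw [← R.sw_smul, R.sw_mem_iff] at h
    exact ⟨c • b, hA.up b hb c hc h, R.sw_smul w c b⟩
  add := by
    rintro _ ⟨b, hb, rfl⟩ _ ⟨c, hc, rfl⟩ p q hp hq h
    rw [← R.sw_smul, ← R.sw_smul, ← R.sw_add, R.sw_mem_iff] at h
    exact ⟨p • b + q • c, hA.add b hb c hc p q hp hq h, by
      rw [R.sw_add, R.sw_smul, R.sw_smul]⟩

theorem clo_ray (i : Fin R.r) : R.Clo (R.ray i) where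
  sub := fun _ hb => hb.1
  up := by
    rintro _ ⟨-, s, hs, rfl⟩ c hc h
    refine ⟨h, c * s, by positivity, by rw [smul_smul]⟩
  add := by
    rintro _ ⟨-, s, hs, rfl⟩ _ ⟨-, t, ht, rfl⟩ p q hp hq h
    refine ⟨h, p * s + q * t, by positivity, by rw [smul_smul, smul_smul, add_smul]⟩

theorem clo_diff_ray (i : Fin R.r) {A : Set R.E} (hA : R.Clo A) (hp : A ⊆ R.pos) :
    R.Clo (A \ R.ray i) where
  sub := fun _ hb => hA.sub hb.1
  up := fun b hb c hc h => by
    refine ⟨hA.up b hb.1 c hc h, fun h1 => hb.2 (ray_of_span R (hp hb.1) ?_)⟩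
    have hc0 : c ≠ 0 := by linarith
    have h2 := Submodule.smul_mem _ c⁻¹ (span_of_ray R h1)
    rwa [smul_smul, inv_mul_cancel₀ hc0, one_smul] at h2
  add := fun b hb c hc p q hp' hq h =>
    ⟨hA.add b hb.1 c hc.1 p q hp' hq h, fun h1 =>
      hb.2 (ray_of_span R (hp hb.1) (mem_span_of_comb R (hp hb.1).2 (hp hc.1).2 hp' hq
        (span_of_ray R h1)))⟩

end

/-- CLO -/
theorem clo : CloStmt := by
  intro ℓ G _ R
  refine ⟨clo_pos R, clo_neg R, clo_diff R, fun J => clo_inter R (clo_pos R) (clo_lev R J),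
    fun A A' hA hA' => clo_inter R hA hA', fun w A hA => clo_image R w hA,
    fun A i hA hp => ⟨clo_diff_ray R i hA hp, clo_inter R hA (clo_ray R i)⟩, ?_⟩
  intro ξ t ht
  refine ⟨fun _ hb => hb.1, ?_, ?_⟩
  · rintro b ⟨-, hb⟩ c hc h
    refine ⟨h, ?_⟩
    rw [real_inner_smul_right]
    nlinarith
  · rintro b ⟨-, hb⟩ c ⟨-, hc⟩ p q hp hq h
    refine ⟨h, ?_⟩
    rw [inner_add_right, real_inner_smul_right, real_inner_smul_right]
    nlinarith

end Pool.Agent.PP.X1.H32
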